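import Mathlib
import Pool.Agent.MP_e733ef_an.MetC

/-!
The Namioka-Phelps characterisation of Asplund spaces among first countable Baire topological
vector spaces; in particular a metrizable Baire space with separable strong dual is Asplund.
-/

universe u

namespace Pool.Agent.Results.MP_e733ef_an.MetrizableAsplund

/-- Frechet differentiability at `x₀`: the difference quotients converge to a continuous linear
functional uniformly on every bounded set. -/
def FrechetDiffAt {E : Type u} [AddCommGroup E] [Module ℝ E] [TopologicalSpace E]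
    (f : E → ℝ) (x₀ : E) : Prop :=
  ∃ φ : E →L[ℝ] ℝ, ∀ B : Set E, Bornology.IsVonNBounded ℝ B → ∀ ε : ℝ, 0 < ε →
    ∃ δ : ℝ, 0 < δ ∧ ∀ t : ℝ, 0 < |t| → |t| < δ → ∀ x ∈ B,
      |(f (x₀ + t • x) - f x₀) / t - φ x| < ε

/-- Asplund space: every continuous convex function on a nonempty open convex set `D` is Frechet
differentiable at each point of a dense G-delta subset of `D`. -/
def IsAsplund (E : Type u) [AddCommGroup E] [Module ℝ E] [TopologicalSpace E] : Prop :=
  ∀ D : Set E, D.Nonempty → IsOpen D → Convex ℝ D →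
    ∀ f : E → ℝ, ContinuousOn f D → ConvexOn ℝ D f →
      ∃ G : Set E, G ⊆ D ∧ IsGδ G ∧ D ⊆ closure G ∧ ∀ x ∈ G, FrechetDiffAt f x

/-- The Namioka-Phelps property: every nonempty equicontinuous set `A` of functionals (a subset
of the polar of a neighbourhood `U` of zero) has nonempty relatively weak star open parts of
arbitrarily small diameter for the uniform distance on any given bounded set `B`. -/
def Fragmented (E : Type u) [AddCommGroup E] [Module ℝ E] [TopologicalSpace E] : Prop :=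
  ∀ U ∈ nhds (0 : E), ∀ A : Set (WeakDual ℝ E), A.Nonempty → (∀ φ ∈ A, ∀ u ∈ U, |φ u| ≤ 1) →
    ∀ B : Set E, Bornology.IsVonNBounded ℝ B → ∀ ε : ℝ, 0 < ε →
      ∃ O : Set (WeakDual ℝ E), IsOpen O ∧ (A ∩ O).Nonempty ∧
        ∀ φ ∈ A ∩ O, ∀ ψ ∈ A ∩ O, ∀ x ∈ B, |φ x - ψ x| ≤ ε

/-- The dual is separable for the uniform distance on each countable bounded set `B`. -/
def DualSeparableOnCountable (E : Type u) [AddCommGroup E] [Module ℝ E] [TopologicalSpace E] :
    Prop :=
  ∀ B : Set E, B.Countable → Bornology.IsVonNBounded ℝ B → ∀ ε : ℝ, 0 < ε →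
    ∃ C : Set (E →L[ℝ] ℝ), C.Countable ∧ ∀ φ : E →L[ℝ] ℝ, ∃ ψ ∈ C, ∀ x ∈ B, |φ x - ψ x| ≤ ε

open Pool.Agent.MP_e733ef_an.Met in
theorem result (E : Type u) [AddCommGroup E] [Module ℝ E] [TopologicalSpace E]
    [IsTopologicalAddGroup E] [ContinuousSMul ℝ E] [FirstCountableTopology E] [BaireSpace E] :
    List.TFAE [IsAsplund E,
      ∀ f : E → ℝ, Continuous f → ConvexOn ℝ Set.univ f → ∃ x : E, FrechetDiffAt f x,
      Fragmented E,
      DualSeparableOnCountable E] := by
  have hfr : Frag E ↔ Fragmented E := by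
    constructor
    · intro h U hU A hA hAU B hB ε hε
      obtain ⟨O, hO, ⟨φ, hφ, hφO⟩, hd⟩ := h U hU A hA hAU B hB ε hε
      exact ⟨(fun (χ : WeakDual ℝ E) (y : E) => χ y) ⁻¹' O,
        hO.preimage (WeakDual.coeFn_continuous (𝕜 := ℝ) (E := E)), ⟨φ, hφ, hφO⟩,
        fun χ hχ ψ hψ => hd χ hχ.1 ψ hψ.1 hχ.2 hψ.2⟩
    · intro h U hU A hA hAU B hB ε hε
      obtain ⟨O, hO, ⟨φ, hφ, hφO⟩, hd⟩ := h U hU A hA hAU B hB ε hε
      obtain ⟨O', hO', rfl⟩ := isOpen_induced_iff.1 hO
      exact ⟨O', hO', ⟨φ, hφ, hφO⟩, fun χ hχ ψ hψ h1 h2 => hd χ ⟨hχ, h1⟩ ψ ⟨hψ, h2⟩⟩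
  tfae_have 1 → 2 := by
    intro h f hfc hfv
    obtain ⟨G, -, -, hG, hF⟩ := h Set.univ Set.univ_nonempty isOpen_univ convex_univ f
      hfc.continuousOn hfv
    obtain ⟨e, he⟩ : G.Nonempty := closure_nonempty_iff.1 ⟨0, hG (Set.mem_univ _)⟩
    exact ⟨e, hF e he⟩
  tfae_have 2 → 3 := fun h => hfr.1 (frag_of_fdiff h)
  tfae_have 3 → 4 := fun h => csep_of_frag (hfr.2 h)
  tfae_have 4 → 1 := fun h D _ hDo _ f hfc hfv => asplund_of_csep h hDo hfc hfv
  tfae_finish

/-- The assertion of Q1 for first countable (metrizable) spaces. -/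
theorem asplund_of_separable_strongDual (E : Type u) [AddCommGroup E] [Module ℝ E]
    [TopologicalSpace E] [IsTopologicalAddGroup E] [ContinuousSMul ℝ E]
    [FirstCountableTopology E] [BaireSpace E]
    [TopologicalSpace.SeparableSpace (StrongDual ℝ E)] : IsAsplund E :=
  ((result E).out 0 3).2 Pool.Agent.MP_e733ef_an.Met.csep_of_separable

end Pool.Agent.Results.MP_e733ef_an.MetrizableAsplund
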