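import Mathlib
import Pool.Agent.MP_e733ef_an.Space

/-!
A Baire locally convex space with separable strong dual that is not Asplund.
-/

open Set TopologicalSpace BoundedContinuousFunction

namespace Pool.Agent.Results.MP_e733ef_an.NotAsplund

/-- Frechet differentiability at `x₀`: the difference quotients converge to a continuous linear
functional uniformly on every bounded set. -/
def FrechetDiffAt {E : Type} [AddCommGroup E] [Module ℝ E] [TopologicalSpace E]
    (f : E → ℝ) (x₀ : E) : Prop :=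
  ∃ φ : E →L[ℝ] ℝ, ∀ B : Set E, Bornology.IsVonNBounded ℝ B → ∀ ε : ℝ, 0 < ε →
    ∃ δ : ℝ, 0 < δ ∧ ∀ t : ℝ, 0 < |t| → |t| < δ → ∀ x ∈ B,
      |(f (x₀ + t • x) - f x₀) / t - φ x| < ε

/-- Gateaux differentiability at `x₀`: the same condition with `B` a singleton. -/
def GateauxDiffAt {E : Type} [AddCommGroup E] [Module ℝ E] [TopologicalSpace E]
    (f : E → ℝ) (x₀ : E) : Prop :=
  ∃ φ : E →L[ℝ] ℝ, ∀ x : E, ∀ ε : ℝ, 0 < ε →
    ∃ δ : ℝ, 0 < δ ∧ ∀ t : ℝ, 0 < |t| → |t| < δ →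
      |(f (x₀ + t • x) - f x₀) / t - φ x| < ε

/-- Asplund space: every continuous convex function on a nonempty open convex set `D` is Frechet
differentiable at each point of a dense G-delta subset of `D`. -/
def IsAsplund (E : Type) [AddCommGroup E] [Module ℝ E] [TopologicalSpace E] : Prop :=
  ∀ D : Set E, D.Nonempty → IsOpen D → Convex ℝ D →
    ∀ f : E → ℝ, ContinuousOn f D → ConvexOn ℝ D f →
      ∃ G : Set E, G ⊆ D ∧ IsGδ G ∧ D ⊆ closure G ∧ ∀ x ∈ G, FrechetDiffAt f x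

open Pool.Agent.MP_e733ef_an in
theorem result :
    ∃ (E : Type) (_ : AddCommGroup E) (_ : Module ℝ E) (_ : TopologicalSpace E)
      (_ : IsTopologicalAddGroup E) (_ : ContinuousSMul ℝ E),
      LocallyConvexSpace ℝ E ∧ T2Space E ∧ BaireSpace E ∧ SeparableSpace (StrongDual ℝ E) ∧
      (∃ f : E → ℝ, Continuous f ∧ ConvexOn ℝ Set.univ f ∧ ∀ x : E, ¬ GateauxDiffAt f x) ∧
      ¬ IsAsplund E := by
  obtain ⟨S, hS, hbig⟩ := exists_big_separable
  obtain ⟨E, i1, i2, i3, i4, i5, hlc, ht2, hB, hfd, P, hP⟩ := exists_space card_bdd hS hbig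
  have hsep : SeparableSpace (StrongDual ℝ E) := by
    refine separable_strongDual hfd (fun n => (evalCLM ℝ n) ∘L P) fun e he => hP.1 ?_
    rw [map_zero]
    ext n
    exact he n
  let f : E → ℝ := fun e => upper (P e)
  have hfc : Continuous f := continuous_upper.comp P.continuous
  have hfv : ConvexOn ℝ Set.univ f := convexOn_upper.comp_linearMap P.toLinearMap
  have hno : ∀ e : E, ¬ GateauxDiffAt f e := by
    rintro e ⟨φ, hφ⟩
    obtain ⟨h, hh⟩ := exists_corner (P e)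
    obtain ⟨v, hPv⟩ := hP.2 h
    have hv : ∀ t : ℝ, f (e + t • v) = upper (P e + t • h) := fun t => by
      simp only [f, map_add, map_smul, hPv]
    obtain ⟨δ, hδ, hd⟩ := hφ v (1 / 2) (by norm_num)
    have ht : 0 < δ / 2 := by positivity
    obtain ⟨h1, h2⟩ := hh (δ / 2) ht
    have a1 := hd (δ / 2) (by rw [abs_of_pos ht]; exact ht) (by rw [abs_of_pos ht]; linarith)
    have a2 := hd (-(δ / 2)) (by rw [abs_neg, abs_of_pos ht]; exact ht)
      (by rw [abs_neg, abs_of_pos ht]; linarith)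
    rw [hv] at a1 a2
    have b1 : 1 ≤ (upper (P e + (δ / 2) • h) - f e) / (δ / 2) := by
      rw [le_div_iff₀ ht]; simp only [f]; linarith
    have b2 : (upper (P e + (-(δ / 2)) • h) - f e) / (-(δ / 2)) ≤ -1 := by
      rw [div_neg, neg_le_neg_iff, le_div_iff₀ ht]; simp only [f]; linarith
    have c1 := (abs_lt.1 a1).2
    have c2 := (abs_lt.1 a2).1
    linarith
  refine ⟨E, i1, i2, i3, i4, i5, hlc, ht2, hB, hsep, ⟨f, hfc, hfv, hno⟩, fun hA => ?_⟩
  obtain ⟨G, -, -, hG, hF⟩ := hA Set.univ univ_nonempty isOpen_univ convex_univ f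
    hfc.continuousOn hfv
  obtain ⟨e, he⟩ : G.Nonempty := closure_nonempty_iff.1 ⟨0, hG (mem_univ _)⟩
  obtain ⟨φ, hφ⟩ := hF e he
  refine hno e ⟨φ, fun x ε hε => ?_⟩
  obtain ⟨δ, hδ, hd⟩ := hφ {x} (Bornology.isVonNBounded_singleton x) ε hε
  exact ⟨δ, hδ, fun t h1 h2 => hd t h1 h2 x rfl⟩

end Pool.Agent.Results.MP_e733ef_an.NotAsplund
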