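import Mathlib
import Pool.Agent.MP_e733ef_an.SepF
import Pool.Agent.MP_e733ef_an.SepG

/-!
A separable reflexive Baire locally convex space with separable strong dual that is not Asplund.
-/

open Set TopologicalSpace

namespace Pool.Agent.Results.MP_e733ef_an.ReflexiveNotAsplund

/-- Frechet differentiability at `x₀`: the difference quotients converge to a continuous linear
functional uniformly on every bounded set. -/
def FrechetDiffAt {E : Type} [AddCommGroup E] [Module ℝ E] [TopologicalSpace E]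
    (f : E → ℝ) (x₀ : E) : Prop :=
  ∃ φ : E →L[ℝ] ℝ, ∀ B : Set E, Bornology.IsVonNBounded ℝ B → ∀ ε : ℝ, 0 < ε →
    ∃ δ : ℝ, 0 < δ ∧ ∀ t : ℝ, 0 < |t| → |t| < δ → ∀ x ∈ B,
      |(f (x₀ + t • x) - f x₀) / t - φ x| < ε

/-- Asplund space: every continuous convex function on a nonempty open convex set `D` is Frechet
differentiable at each point of a dense G-delta subset of `D`. -/
def IsAsplund (E : Type) [AddCommGroup E] [Module ℝ E] [TopologicalSpace E] : Prop :=
  ∀ D : Set E, D.Nonempty → IsOpen D → Convex ℝ D →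
    ∀ f : E → ℝ, ContinuousOn f D → ConvexOn ℝ D f →
      ∃ G : Set E, G ⊆ D ∧ IsGδ G ∧ D ⊆ closure G ∧ ∀ x ∈ G, FrechetDiffAt f x

/-- Reflexive space: evaluation is an isomorphism of topological vector spaces onto the strong
dual of the strong dual. -/
def IsReflexiveSpace (E : Type) [AddCommGroup E] [Module ℝ E] [TopologicalSpace E] : Prop :=
  ∃ j : E ≃L[ℝ] StrongDual ℝ (StrongDual ℝ E), ∀ (x : E) (φ : StrongDual ℝ E), j x φ = φ x

open Pool.Agent.MP_e733ef_an.Sep in
theorem result :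
    ∃ (E : Type) (_ : AddCommGroup E) (_ : Module ℝ E) (_ : TopologicalSpace E)
      (_ : IsTopologicalAddGroup E) (_ : ContinuousSMul ℝ E),
      LocallyConvexSpace ℝ E ∧ T2Space E ∧ BaireSpace E ∧ SeparableSpace E ∧
      IsReflexiveSpace E ∧ SeparableSpace (StrongDual ℝ E) ∧
      (∃ p : Seminorm ℝ E, Continuous p ∧ (∀ x, p x = 0 → x = 0) ∧ ∀ x, ¬ FrechetDiffAt p x) ∧
      ¬ IsAsplund E := by
  obtain ⟨E, i1, i2, i3, i4, i5, hlc, ht2, hB, hs, hs', hr, P, hP, hv⟩ := sys.exists_space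
  let p : Seminorm ℝ E := (normSeminorm ℝ XX).comp P.toLinearMap
  have hp : ∀ e, p e = ‖P e‖ := fun _ => rfl
  have hpc : Continuous p := P.continuous.norm
  have hno : ∀ e : E, ¬ FrechetDiffAt p e := by
    rintro e ⟨φ, hφ⟩
    obtain ⟨t, ht⟩ := corner (P e)
    obtain ⟨v, hvb, hPv⟩ := hv t
    obtain ⟨δ, hδ, hd⟩ := hφ _ hvb (1 / 4) (by norm_num)
    have hτ : 0 < δ / 2 := by positivity
    obtain ⟨n, hn⟩ := ht (δ / 2) hτ (δ / 4) (by positivity)
    have h1 : ∀ σ : ℝ, p (e + σ • v n) = ‖P e + σ • hh (sib t n)‖ := fun σ => by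
      rw [hp, map_add, map_smul, hPv]
      rfl
    have a1 := (abs_lt.1 (hd (δ / 2) (by rw [abs_of_pos hτ]; exact hτ)
      (by rw [abs_of_pos hτ]; linarith) _ (mem_range_self n))).2
    have a2 := (abs_lt.1 (hd (-(δ / 2)) (by rw [abs_neg, abs_of_pos hτ]; exact hτ)
      (by rw [abs_neg, abs_of_pos hτ]; linarith) _ (mem_range_self n))).1
    rw [h1, hp, sub_lt_iff_lt_add, div_lt_iff₀ hτ] at a1
    rw [h1, hp, div_neg, lt_sub_iff_add_lt, lt_neg, div_lt_iff₀ hτ] at a2
    linarith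
  refine ⟨E, i1, i2, i3, i4, i5, hlc, ht2, hB, hs, reflexive_of_baire hr, hs',
    ⟨p, hpc, fun x hx => hP ((norm_eq_zero.1 hx).trans (map_zero P).symm), hno⟩, fun hA => ?_⟩
  obtain ⟨G, -, -, hG, hF⟩ := hA Set.univ univ_nonempty isOpen_univ convex_univ p
    hpc.continuousOn p.convexOn
  obtain ⟨e, he⟩ : G.Nonempty := closure_nonempty_iff.1 ⟨0, hG (mem_univ _)⟩
  exact hno e (hF e he)

end Pool.Agent.Results.MP_e733ef_an.ReflexiveNotAsplund
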